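import Pool.Agent.N784.HC.Fem

/-!
# The functional equation and the orders of the zeros in the critical strip, the real zeros included
(helper29)
-/

set_option autoImplicit false

open Complex Filter Topology
open H370.DL (refl analyticAt_refl order_refl eventually_im_ne)
open Pool.Agent.N784.HC (FEm GGm LXm fe_asymM LXm_an LXm_ne)
open Pool.Agent.Y772.FE (cpow_R_ne an_R)

namespace Pool.Agent.K9h29.RD

variable {ι : Type} [Fintype ι]

lemma an_GR {s : ℂ} (hs : 0 < s.re) : AnalyticAt ℂ Gammaℝ s := by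
  have h1 : AnalyticAt ℂ (fun z => (Gammaℝ z)⁻¹) s := differentiable_Gammaℝ_inv.analyticAt s
  have h2 := h1.inv (inv_ne_zero (Gammaℝ_ne_zero_of_re_pos hs))
  have h3 : (fun z => (Gammaℝ z)⁻¹)⁻¹ = Gammaℝ := by
    funext z
    rw [Pi.inv_apply, inv_inv]
  rwa [h3] at h2

lemma GGm_ne' {R : ℝ} (hR : 0 < R) {μ : ι → ℝ} (hμ : ∀ i, 0 ≤ μ i) {s : ℂ} (hs : 0 < s.re) :
    GGm R μ s ≠ 0 := by
  unfold GGm
  refine mul_ne_zero (cpow_R_ne hR _) (Finset.prod_ne_zero_iff.2 fun i _ => ?_)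
  refine Gammaℝ_ne_zero_of_re_pos ?_
  have : (s + (μ i : ℂ)).re = s.re + μ i := by simp
  rw [this]
  linarith [hμ i]

lemma GGm_an' {R : ℝ} (hR : 0 < R) {μ : ι → ℝ} (hμ : ∀ i, 0 ≤ μ i) {s : ℂ} (hs : 0 < s.re) :
    AnalyticAt ℂ (GGm R μ) s := by
  have h1 : AnalyticAt ℂ (fun z : ℂ => ∏ i, Gammaℝ (z + μ i)) s := by
    refine Finset.analyticAt_fun_prod _ fun i _ => ?_
    have h2 : AnalyticAt ℂ (fun z : ℂ => z + (μ i : ℂ)) s := by fun_prop
    refine (an_GR ?_).fun_comp h2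
    have : (s + (μ i : ℂ)).re = s.re + μ i := by simp
    rw [this]
    linarith [hμ i]
  exact (an_R hR s).mul h1

lemma LXm_an' (w : ℂ) {R : ℝ} (hR : 0 < R) {μ : ι → ℝ} (hμ : ∀ i, 0 ≤ μ i) {s : ℂ}
    (h0 : 0 < s.re) (h1 : s.re < 1) : AnalyticAt ℂ (LXm w R μ) s := by
  have h3 : AnalyticAt ℂ (fun z : ℂ => 1 - z) s := by fun_prop
  have h4 : 0 < (1 - s).re := by
    rw [sub_re, one_re]
    linarith
  have h5 : AnalyticAt ℂ (fun z : ℂ => GGm R μ (1 - z)) s := (GGm_an' hR hμ h4).fun_comp h3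
  exact (analyticAt_const.mul h5).div (GGm_an' hR hμ h0) (GGm_ne' hR hμ h0)

lemma LXm_ne' {w : ℂ} (hw : w ≠ 0) {R : ℝ} (hR : 0 < R) {μ : ι → ℝ} (hμ : ∀ i, 0 ≤ μ i) {s : ℂ}
    (h0 : 0 < s.re) (h1 : s.re < 1) : LXm w R μ s ≠ 0 := by
  have h4 : 0 < (1 - s).re := by
    rw [sub_re, one_re]
    linarith
  exact div_ne_zero (mul_ne_zero hw (GGm_ne' hR hμ h4)) (GGm_ne' hR hμ h0)

/-- **the order of a zero and of its reflection** -/
theorem ord_sym {R : ℝ} (hR : 0 < R) {μ : ι → ℝ} (hμ : ∀ i, 0 ≤ μ i) {F : ℂ → ℂ}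
    (hF : FEm R μ F) {s : ℂ} (h0 : 0 < s.re) (h1 : s.re < 1) :
    analyticOrderAt F (1 - (starRingEnd ℂ) s) = analyticOrderAt F s := by
  obtain ⟨w, hw, hfe⟩ := fe_asymM hR hF
  have hw0 : w ≠ 0 := by
    intro h
    rw [h, norm_zero] at hw
    exact zero_ne_one hw
  have ha : AnalyticAt ℂ F (1 - (starRingEnd ℂ) s) := hF.diff.analyticAt _
  have hX := LXm_an' w hR hμ h0 h1
  have hE : F =ᶠ[𝓝 s] (LXm w R μ) * refl F := by
    by_cases hs : s.im = 0
    · refine ((hF.diff.analyticAt s).frequently_eq_iff_eventually_eq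
        (hX.mul (analyticAt_refl ha))).mp ?_
      have ht : Tendsto (fun n : ℕ => s + I * (((1 : ℝ) / ((n : ℝ) + 1) : ℝ) : ℂ)) atTop
          (𝓝[≠] s) := by
        rw [tendsto_nhdsWithin_iff]
        constructor
        · have h2 : Tendsto (fun n : ℕ => (1 : ℝ) / ((n : ℝ) + 1)) atTop (𝓝 0) :=
            tendsto_one_div_add_atTop_nhds_zero_nat
          have h3 : Tendsto (fun n : ℕ => (((1 : ℝ) / ((n : ℝ) + 1) : ℝ) : ℂ)) atTop
              (𝓝 ((0 : ℝ) : ℂ)) := (continuous_ofReal.tendsto 0).comp h2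
          have h4 := (h3.const_mul I).const_add s
          rw [ofReal_zero, mul_zero, add_zero] at h4
          exact h4
        · refine Eventually.of_forall fun n => ?_
          rw [Set.mem_compl_iff, Set.mem_singleton_iff]
          intro h
          have h2 : I * (((1 : ℝ) / ((n : ℝ) + 1) : ℝ) : ℂ) = 0 := by
            rw [add_eq_left] at h
            exact h
          rcases mul_eq_zero.mp h2 with h3 | h3
          · exact I_ne_zero h3
          · have h4 : (1 : ℝ) / ((n : ℝ) + 1) = 0 := by exact_mod_cast h3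
            have h5 : (0 : ℝ) < 1 / ((n : ℝ) + 1) := by positivity
            exact h5.ne' h4
      refine ht.frequently (Eventually.frequently (Eventually.of_forall fun n => ?_))
      refine hfe _ ?_
      have h5 : (0 : ℝ) < 1 / ((n : ℝ) + 1) := by positivity
      have h6 : (s + I * (((1 : ℝ) / ((n : ℝ) + 1) : ℝ) : ℂ)).im = s.im + 1 / ((n : ℝ) + 1) := by
        rw [add_im, I_mul_im, ofReal_re]
      rw [h6, hs, zero_add]
      exact h5.ne'
    · filter_upwards [eventually_im_ne hs] with z hz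
      exact hfe z hz
  rw [analyticOrderAt_congr hE, analyticOrderAt_mul hX (analyticAt_refl ha),
    hX.analyticOrderAt_eq_zero.mpr (LXm_ne' hw0 hR hμ h0 h1), zero_add, order_refl ha]

end Pool.Agent.K9h29.RD
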