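import Pool.Agent.N784.CZ.Crv
import Pool.Agent.K9h29.RD.Sym

/-!
# Counting zeros in bounded sets: products over all characters, the conductor one, reflection
(helper29; the first two theorems are adapted from `Pool.Agent.N784.CZ.Crv`)
-/

set_option autoImplicit false
set_option linter.unusedSectionVars false

open NumberField Complex Filter Topology Set

namespace Pool.Agent.K9h29.RD

open Pool.Agent.Y773 (TPos LI)
open Pool.Agent.Y773.G (cj cj_cj cj_apply)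
open Pool.Agent.Y767 (Mq Cls cls eq_of_LI)
open Pool.Agent.Y773.IQ (ofM' tM LL LL_eq absNorm_pos')
open Pool.Agent.N784.HC
open Pool.Agent.N784.CZ
open Pool.Agent.N784.AD (pi1 pi1_coe Un one_le_Un cls_card_le hK T1)
open Pool.Agent.N833.CZ (norm_ofM'_le)
open H370 (zset mult NN Nd Ns)
open Pool.Agent.H82R3.EK (cnt cnt_eq_sum cnt_prod NN_eq Ns_le strip line)
open Pool.Agent.W164.RC (cnt_mul)

section

variable {K : Type} [Field K] [NumberField K] {n : (K →+* ℂ) → ℕ}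

/-- few zeros of the L-functions of the characters of conductor one -/
theorem dn0_bd (hGro : StGro) (hCru : StCru) (hn : CTyp n) (hn0 : n ≠ 0) :
    ∃ B : ℝ, 0 ≤ B ∧ ∀ (𝔮 : Ideal (𝓞 K)) (_ : 𝔮 ≠ ⊥) (htop : 𝔮 ≠ ⊤) (F : Mq 𝔮 →* ℂˣ),
      F ∈ Dn0 n 𝔮 → ∀ L : ℂ → ℂ, Differentiable ℂ L → (∀ s : ℂ, 1 < s.re → L s = LI (ofM' htop F) s) →
      ∀ T : ℝ, 1 ≤ T → ∀ W : Set ℂ, W ⊆ bx T → (cnt L W : ℝ) ≤ B * T ^ 2 ∧
        (cnt (cf L) W : ℝ) ≤ B * T ^ 2 := by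
  classical
  obtain ⟨b2, t2⟩ := span_two K
  obtain ⟨A₀, hA₀, hD⟩ := Pool.Agent.Y772.DK.t_dirK K
  obtain ⟨hfin, -⟩ := Dn_card_le (n := n) b2 t2
  have hex : ∀ F'' : Mq (Ideal.span {(2 : 𝓞 K)}) →* ℂˣ, ∃ (L : ℂ → ℂ) (C' : ℝ),
      F'' ∈ Dn n t2 → Differentiable ℂ L ∧ (∀ s : ℂ, 1 < s.re → L s = LI (ofM' t2 F'') s) ∧
      L 2 ≠ 0 ∧ ∀ T : ℝ, 1 ≤ T →
        ∑ᶠ s ∈ {s : ℂ | 0 < s.re ∧ s.re < 1 ∧ |s.im| ≤ 2 * T ∧ L s = 0},
          (analyticOrderNatAt L s : ℝ) ≤ C' * T ^ 2 := by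
    intro F''
    by_cases h : F'' ∈ Dn n t2
    · obtain ⟨L, C, h1, h2, h3⟩ := hGro K n hn hn0 _ b2 t2 F'' h
      have hn1 := norm_ofM'_le b2 t2 h
      obtain ⟨-, -, d3, -, -, d6, -⟩ := hD _ hn1
      obtain ⟨C', hC'⟩ := hCru L C A₀⁻¹ h1 (by positivity) (fun s hs => by
        rw [h2 s (by rw [hs]; norm_num)]
        exact d6 s hs.ge) h3
      refine ⟨L, C', fun _ => ⟨h1, h2, ?_, fun T hT => (hC' T hT).2⟩⟩
      rw [h2 2 (by norm_num)]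
      exact d3 2 (by norm_num)
    · exact ⟨fun _ => 0, 0, fun h' => absurd h' h⟩
  choose L2 C2 h2 using hex
  refine ⟨∑ F'' ∈ hfin.toFinset, |C2 F''|, Finset.sum_nonneg fun _ _ => abs_nonneg _, ?_⟩
  intro 𝔮 hbot htop F hF L hL hLs T hT
  obtain ⟨F'', hF'', hord⟩ := dn0_red hbot htop hF
  obtain ⟨g1, g2, g3, g4⟩ := h2 F'' hF''
  have ho := hord L (L2 F'') hL g1 hLs g2
  have hT2 : 0 ≤ T ^ 2 := by positivity
  have hC : C2 F'' ≤ ∑ F'' ∈ hfin.toFinset, |C2 F''| :=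
    (le_abs_self _).trans (Finset.single_le_sum (f := fun F => |C2 F|) (fun _ _ => abs_nonneg _)
      (hfin.mem_toFinset.mpr hF''))
  have hbxb : ∀ s ∈ bx T, ‖s‖ ≤ 1 + 2 * T := by
    rintro s ⟨a, b, c⟩
    refine (Complex.norm_le_abs_re_add_abs_im s).trans (add_le_add ?_ c)
    rw [abs_of_pos a]
    exact b.le
  have hbfin : {s : ℂ | s ∈ bx T ∧ L2 F'' s = 0}.Finite := zeros_bdd g1 g3 hbxb
  have hcnt : (cnt (L2 F'') (bx T) : ℝ) ≤ C2 F'' * T ^ 2 := by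
    refine le_trans (le_of_eq ?_) (g4 T hT)
    have hset : {s : ℂ | 0 < s.re ∧ s.re < 1 ∧ |s.im| ≤ 2 * T ∧ L2 F'' s = 0} =
        {s : ℂ | s ∈ bx T ∧ L2 F'' s = 0} := by
      ext s
      simp only [bx, Set.mem_ofPred_eq, and_assoc]
    unfold cnt
    rw [hset, finsum_mem_eq_finite_toFinset_sum _ hbfin,
      finsum_mem_eq_finite_toFinset_sum _ hbfin]
    push_cast
    rfl
  have hgen : ∀ W : Set ℂ, W ⊆ bx T → (cnt L W : ℝ) ≤
      (∑ F'' ∈ hfin.toFinset, |C2 F''|) * T ^ 2 := by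
    intro W hW
    have h5 : cnt L W = cnt (L2 F'') W := cnt_congr hL g1 fun s hs => ho s (hW hs).1
    have h6 : cnt (L2 F'') W ≤ cnt (L2 F'') (bx T) := cnt_mono hW hbfin
    calc (cnt L W : ℝ) = cnt (L2 F'') W := by rw [h5]
      _ ≤ cnt (L2 F'') (bx T) := by exact_mod_cast h6
      _ ≤ C2 F'' * T ^ 2 := hcnt
      _ ≤ _ := mul_le_mul_of_nonneg_right hC hT2
  intro W hWb
  refine ⟨hgen W hWb, ?_⟩
  rw [cnt_cf hL]
  apply hgen
  intro s hs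
  obtain ⟨a, b, c⟩ := hWb hs
  rw [Complex.conj_re] at a b
  rw [Complex.conj_im, abs_neg] at c
  exact ⟨a, b, c⟩

end

open Classical in
/-- the zeros of the product of the L-functions of all the characters modulo `𝔮` of type `n` and
their conjugates, in terms of the family -/
theorem prod_cn {K : Type} [Field K] [NumberField K] {n : (K →+* ℂ) → ℕ}
    {𝔮 : Ideal (𝓞 K)} (hbot : 𝔮 ≠ ⊥) (htop : 𝔮 ≠ ⊤)
    (L : (Mq 𝔮 →* ℂˣ) → ℂ → ℂ)
    (hL : ∀ F ∈ Dn n htop, Differentiable ℂ (L F) ∧ ∀ s : ℂ, 1 < s.re → L F s = LI (ofM' htop F) s)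
    (hLL : ∀ ψ ∈ FamN n 𝔮, Differentiable ℂ (LL K ψ) ∧ ∀ s : ℂ, 1 < s.re → LL K ψ s = LI ψ s)
    (J : Finset (Mq 𝔮 →* ℂˣ)) (hJ : ∀ F, F ∈ J ↔ F ∈ Dn n htop)
    (Fs : Finset (Ideal (𝓞 K) →*₀ ℂ)) (hFs : ∀ ψ, ψ ∈ Fs ↔ ψ ∈ FamN n 𝔮)
    {B₀ : ℝ} {W : Set ℂ} (hW0 : ∀ s ∈ W, 0 < s.re) (hWb : ∀ s ∈ W, ‖s‖ ≤ B₀) :
    (cnt (fun s => ∏ F ∈ J, (L F s * cf (L F) s)) W ≤
      ∑ ψ ∈ Fs, (cnt (LL K ψ) W + cnt (LL K (cc' ψ)) W) +
      ∑ F ∈ J.filter (fun F => F ∈ Dn0 n 𝔮), (cnt (L F) W + cnt (cf (L F)) W)) := by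
  have hne : ∀ F ∈ J, L F 2 ≠ 0 := by
    intro F hF
    have hF' := (hJ F).mp hF
    rw [(hL F hF').2 2 (by norm_num)]
    exact LI_ne (norm_ofM'_le hbot htop hF') (by norm_num)
  have hne' : ∀ F ∈ J, cf (L F) 2 ≠ 0 := by
    intro F hF
    unfold cf
    rw [Ne, map_eq_zero, map_ofNat]
    exact hne F hF
  have hd : ∀ F ∈ J, Differentiable ℂ (L F) := fun F hF => (hL F ((hJ F).mp hF)).1
  have hd' : ∀ F ∈ J, Differentiable ℂ (cf (L F)) := fun F hF => cf_diff (hd F hF)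
  have hone : ∀ F ∈ J, cnt (fun s => L F s * cf (L F) s) W = cnt (L F) W + cnt (cf (L F)) W := by
    intro F hF
    exact cnt_mul (fun s _ => (hd F hF).analyticAt s) (fun s _ => (hd' F hF).analyticAt s)
      (fun s _ => order_ne_top (hd F hF) (hne F hF) s)
      (fun s _ => order_ne_top (hd' F hF) (hne' F hF) s)
      (zeros_bdd (hd F hF) (hne F hF) hWb) (zeros_bdd (hd' F hF) (hne' F hF) hWb)
  have hdm : ∀ F ∈ J, Differentiable ℂ (fun s => L F s * cf (L F) s) := fun F hF =>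
    (hd F hF).mul (hd' F hF)
  have hnem : ∀ F ∈ J, (fun s => L F s * cf (L F) s) 2 ≠ 0 := fun F hF =>
    mul_ne_zero (hne F hF) (hne' F hF)
  have htot : cnt (fun s => ∏ F ∈ J, (L F s * cf (L F) s)) W =
      ∑ F ∈ J, (cnt (L F) W + cnt (cf (L F)) W) := by
    rw [cnt_prod J (fun F s => L F s * cf (L F) s) (fun F hF s _ => (hdm F hF).analyticAt s)
      (fun F hF s _ => order_ne_top (hdm F hF) (hnem F hF) s)
      (fun F hF => zeros_bdd (hdm F hF) (hnem F hF) hWb)]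
    exact Finset.sum_congr rfl hone
  have hinj : Set.InjOn (tM 𝔮) (Fs : Set (Ideal (𝓞 K) →*₀ ℂ)) := by
    intro ψ hψ ψ' hψ' h
    exact tM_inj hbot htop ((hFs ψ).mp hψ) ((hFs ψ').mp hψ') h
  have himg : ∑ ψ ∈ Fs, (cnt (LL K ψ) W + cnt (LL K (cc' ψ)) W) =
      ∑ F ∈ Fs.image (tM 𝔮), (cnt (L F) W + cnt (cf (L F)) W) := by
    rw [Finset.sum_image hinj]
    refine Finset.sum_congr rfl fun ψ hψ => ?_
    have hψ' := (hFs ψ).mp hψ
    have hF := hL _ (tM_mem htop hψ')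
    obtain ⟨k1, k2⟩ := cnt_tM hbot htop hψ' hF.1 hF.2 (hLL ψ hψ').1 (hLL ψ hψ').2 hW0
    rw [k1, k2]
  rw [htot, himg]
  rw [← Finset.sum_union_inter]
  refine le_trans ?_ (Nat.le_add_right _ _)
  refine Finset.sum_le_sum_of_subset ?_
  intro F hF
  rw [Finset.mem_union]
  rcases dn_cases hbot htop ((hJ F).mp hF) with h | ⟨ψ, h2, h3⟩
  · right
    rw [Finset.mem_filter]
    exact ⟨hF, h⟩
  · left
    rw [Finset.mem_image]
    exact ⟨ψ, (hFs ψ).mpr h2, h3⟩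

/-- the part of the critical strip at distance at least `δ` from the critical line -/
def Wd (δ t H : ℝ) : Set ℂ :=
  {s : ℂ | 0 < s.re ∧ s.re < 1 ∧ δ ≤ |s.re - 1 / 2| ∧ t ≤ s.im ∧ s.im ≤ t + H}

/-- its right half -/
def Wp (δ t H : ℝ) : Set ℂ :=
  {s : ℂ | 0 < s.re ∧ s.re < 1 ∧ 1 / 2 + δ ≤ s.re ∧ t ≤ s.im ∧ s.im ≤ t + H}

/-- its left half -/
def Wm (δ t H : ℝ) : Set ℂ :=
  {s : ℂ | 0 < s.re ∧ s.re < 1 ∧ s.re ≤ 1 / 2 - δ ∧ t ≤ s.im ∧ s.im ≤ t + H}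

lemma Wd_sub (δ t H : ℝ) : Wd δ t H ⊆ Wp δ t H ∪ Wm δ t H := by
  rintro s ⟨h1, h2, h3, h4, h5⟩
  rcases le_abs.mp h3 with h | h
  · exact Or.inl ⟨h1, h2, by linarith, h4, h5⟩
  · exact Or.inr ⟨h1, h2, by linarith, h4, h5⟩

lemma box_bdd {a t H : ℝ} {s : ℂ} (h1 : 0 < s.re) (h2 : s.re < a) (h4 : t ≤ s.im)
    (h5 : s.im ≤ t + H) (hH : 0 ≤ H) : ‖s‖ ≤ a + (|t| + H) := by
  refine (Complex.norm_le_abs_re_add_abs_im s).trans (add_le_add ?_ ?_)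
  · rw [abs_of_pos h1]; exact h2.le
  · rw [abs_le]
    constructor
    · have := neg_abs_le t
      linarith
    · have := le_abs_self t
      linarith

/-- counting is subadditive -/
lemma cnt_union_le {f : ℂ → ℂ} {U V W : Set ℂ} (h : W ⊆ U ∪ V)
    (hU : {s : ℂ | s ∈ U ∧ f s = 0}.Finite) (hV : {s : ℂ | s ∈ V ∧ f s = 0}.Finite) :
    cnt f W ≤ cnt f U + cnt f V := by
  classical
  have hsub : {s : ℂ | s ∈ W ∧ f s = 0} ⊆ {s : ℂ | s ∈ U ∧ f s = 0} ∪ {s : ℂ | s ∈ V ∧ f s = 0} := by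
    rintro s ⟨h1, h2⟩
    rcases h h1 with h3 | h3
    · exact Or.inl ⟨h3, h2⟩
    · exact Or.inr ⟨h3, h2⟩
  have hW : {s : ℂ | s ∈ W ∧ f s = 0}.Finite := (hU.union hV).subset hsub
  unfold cnt
  rw [finsum_mem_eq_finite_toFinset_sum _ hW, finsum_mem_eq_finite_toFinset_sum _ hU,
    finsum_mem_eq_finite_toFinset_sum _ hV, ← Finset.sum_union_inter]
  refine le_trans ?_ (Nat.le_add_right _ _)
  refine Finset.sum_le_sum_of_subset ?_
  intro s hs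
  rw [Set.Finite.mem_toFinset] at hs
  rw [Finset.mem_union, Set.Finite.mem_toFinset, Set.Finite.mem_toFinset]
  exact hsub hs

/-- the reflection interchanges the two halves -/
lemma cnt_refl {R : ℝ} {ι : Type} [Fintype ι] (hR : 0 < R) {μ : ι → ℝ} (hμ : ∀ i, 0 ≤ μ i)
    {F : ℂ → ℂ} (hF : FEm R μ F) (δ t H : ℝ) : cnt F (Wm δ t H) = cnt F (Wp δ t H) := by
  unfold cnt
  have hr : ∀ s : ℂ, 0 < s.re → s.re < 1 → (F (1 - (starRingEnd ℂ) s) = 0 ↔ F s = 0) := by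
    intro s h0 h1
    rw [← not_iff_not, ← Ne, ← Ne, ← (hF.diff.analyticAt s).analyticOrderAt_eq_zero,
      ← (hF.diff.analyticAt _).analyticOrderAt_eq_zero, ord_sym hR hμ hF h0 h1]
  have hre : ∀ s : ℂ, (1 - (starRingEnd ℂ) s).re = 1 - s.re := fun s => by simp
  have him : ∀ s : ℂ, (1 - (starRingEnd ℂ) s).im = s.im := fun s => by simp
  have h1 : {s : ℂ | s ∈ Wm δ t H ∧ F s = 0} =
      (fun s : ℂ => 1 - (starRingEnd ℂ) s) '' {s : ℂ | s ∈ Wp δ t H ∧ F s = 0} := by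
    ext s
    constructor
    · rintro ⟨⟨a1, a2, a3, a4, a5⟩, b⟩
      refine ⟨1 - (starRingEnd ℂ) s, ⟨⟨?_, ?_, ?_, ?_, ?_⟩, ?_⟩, by simp⟩
      · rw [hre]; linarith
      · rw [hre]; linarith
      · rw [hre]; linarith
      · rw [him]; exact a4
      · rw [him]; exact a5
      · exact (hr s a1 a2).mpr b
    · rintro ⟨s, ⟨⟨a1, a2, a3, a4, a5⟩, b⟩, rfl⟩
      refine ⟨⟨?_, ?_, ?_, ?_, ?_⟩, ?_⟩
      · show 0 < (1 - (starRingEnd ℂ) s).re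
        rw [hre]; linarith
      · show (1 - (starRingEnd ℂ) s).re < 1
        rw [hre]; linarith
      · show (1 - (starRingEnd ℂ) s).re ≤ 1 / 2 - δ
        rw [hre]; linarith
      · show t ≤ (1 - (starRingEnd ℂ) s).im
        rw [him]; exact a4
      · show (1 - (starRingEnd ℂ) s).im ≤ t + H
        rw [him]; exact a5
      · exact (hr s a1 a2).mpr b
  rw [h1, finsum_mem_image (fun a _ b _ h => by
    have h2 : (1 : ℂ) - (starRingEnd ℂ) a = 1 - (starRingEnd ℂ) b := h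
    have h3 : (starRingEnd ℂ) a = (starRingEnd ℂ) b := by linear_combination -h2
    exact (starRingEnd ℂ).injective h3)]
  refine finsum_mem_congr rfl fun s hs => ?_
  unfold mult analyticOrderNatAt
  rw [ord_sym hR hμ hF hs.1.1 hs.1.2.1]

end Pool.Agent.K9h29.RD
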