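import Pool.Agent.N784.CZ.Den
import Pool.Agent.N784.CZ.Fin
import Pool.Agent.N784.AD.Num
import Pool.Agent.K9h29.RD.Cnt

/-!
# Zeros away from the critical line: the family and the product over all characters (helper29)
-/

set_option autoImplicit false
set_option linter.unusedSectionVars false

open NumberField Complex Filter Topology Set

namespace Pool.Agent.K9h29.RD

open Pool.Agent.Y773 (TPos LI)
open Pool.Agent.Y767 (Mq Cls cls eq_of_LI)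
open Pool.Agent.Y773.IQ (ofM' tM LL LL_eq absNorm_pos' dv divisor_bound norm_le_tau_phi)
open Pool.Agent.N784.HC
open Pool.Agent.N784.CZ
open Pool.Agent.N784.AD (pi1 pi1_coe Un one_le_Un cls_card_le hK T1 card_units_le)
open Pool.Agent.N833.CZ (norm_ofM'_le)
open H370 (zset mult NN Nd Ns)
open Pool.Agent.H82R3.EK (cnt cnt_eq_sum cnt_prod NN_eq Ns_le strip line)

/-- **the family** -/
theorem fam_den (K : Type) [Field K] [NumberField K] {n : (K →+* ℂ) → ℕ} (hn : CTyp n) (h c : ℝ)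
    (hh1 : h ≤ 1) (hc0 : 0 < c) (hc : c < 2 * h - 1) :
    ∃ A : ℝ, 1 ≤ A ∧ ∀ (𝔮 : Ideal (𝓞 K)) (_ : 𝔮 ≠ ⊥) (htop : 𝔮 ≠ ⊤) (T H : ℝ), 1 ≤ H → H ≤ T →
      ((Ideal.absNorm 𝔮 : ℝ) * T ^ Module.finrank ℚ K) ^ h ≤ (Ideal.absNorm 𝔮 : ℝ) →
      ∀ Fs : Finset (Ideal (𝓞 K) →*₀ ℂ), (∀ ψ ∈ Fs, ψ ∈ FamN n 𝔮) →
      ∀ t₁ : ℝ, |t₁| ≤ T → ∀ δ : ℝ, 0 ≤ δ →
      ∑ ψ ∈ Fs, (cnt (LL K ψ) (Wd δ t₁ H) : ℝ) ≤
        A * (Nat.card (Cls (pi1 htop)) * Un 𝔮 * H *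
          Real.log ((Ideal.absNorm 𝔮 : ℝ) * T ^ Module.finrank ℚ K) *
          ((Ideal.absNorm 𝔮 : ℝ) * T ^ Module.finrank ℚ K) ^ (-(c * δ))) := by
  classical
  obtain ⟨A, hA, hden⟩ := den_core tt_lsp K hn h c hh1 hc0 hc
  refine ⟨2 * A, by linarith, ?_⟩
  intro 𝔮 hbot htop T H hH hHT hX Fs hFs t₁ ht₁ δ hδ
  have hH0 : 0 ≤ H := by linarith
  have hfun : ∀ ψ ∈ Fs, Differentiable ℂ (LL K ψ) ∧ (∀ s : ℂ, 1 < s.re → LL K ψ s = LI ψ s) ∧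
      LL K ψ 2 ≠ 0 ∧ cnt (LL K ψ) (Wm δ t₁ H) = cnt (LL K ψ) (Wp δ t₁ H) := by
    intro ψ hψ
    obtain ⟨𝔣, h1, h2, h3⟩ := hFs ψ hψ
    obtain ⟨hψ1, μ, F, hμ, hFE, hFL⟩ := feM hn h2 h3
    have e : LL K ψ = F := LL_eq K hFE.diff hFL
    have hN : (0 : ℝ) < ((Ideal.absNorm 𝔣 * Ideal.absNorm (differentIdeal ℤ (𝓞 K)) : ℕ) : ℝ) := by
      have a1 : 0 < Ideal.absNorm 𝔣 := absNorm_pos' h3.ne_bot
      have a2 : 0 < Ideal.absNorm (differentIdeal ℤ (𝓞 K)) := absNorm_pos' differentIdeal_ne_bot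
      exact_mod_cast Nat.mul_pos a1 a2
    rw [e]
    refine ⟨hFE.diff, hFL, ?_, cnt_refl hN (fun i => (hμ i).1) hFE δ t₁ H⟩
    rw [hFL 2 (by norm_num)]
    exact LI_ne hψ1 (by norm_num)
  have hpb : ∀ s ∈ Wp δ t₁ H, ‖s‖ ≤ 1 + (|t₁| + H) := fun s ⟨h1, h2, _, h4, h5⟩ =>
    box_bdd h1 h2 h4 h5 hH0
  have hmb : ∀ s ∈ Wm δ t₁ H, ‖s‖ ≤ 1 + (|t₁| + H) := fun s ⟨h1, h2, _, h4, h5⟩ =>
    box_bdd h1 h2 h4 h5 hH0
  have hZex : ∀ ψ : Ideal (𝓞 K) →*₀ ℂ, ∃ Z : Finset ℂ, ψ ∈ Fs →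
      (Z : Set ℂ) = {s : ℂ | s ∈ Wp δ t₁ H ∧ LL K ψ s = 0} := by
    intro ψ
    by_cases hψ : ψ ∈ Fs
    · obtain ⟨k1, k2, k3, k4⟩ := hfun ψ hψ
      exact ⟨(zeros_bdd k1 k3 hpb).toFinset, fun _ => Set.Finite.coe_toFinset _⟩
    · exact ⟨∅, fun h' => absurd h' hψ⟩
  choose Z hZ using hZex
  have hcp : ∀ ψ ∈ Fs, cnt (LL K ψ) (Wp δ t₁ H) = ∑ z ∈ Z ψ, analyticOrderNatAt (LL K ψ) z := by
    intro ψ hψ
    unfold cnt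
    rw [← hZ ψ hψ, finsum_mem_coe_finset]
    rfl
  have hle : ∀ ψ ∈ Fs, (cnt (LL K ψ) (Wd δ t₁ H) : ℝ) ≤
      2 * ∑ z ∈ Z ψ, (analyticOrderNatAt (LL K ψ) z : ℝ) := by
    intro ψ hψ
    obtain ⟨k1, k2, k3, k4⟩ := hfun ψ hψ
    have h1 := cnt_union_le (Wd_sub δ t₁ H) (zeros_bdd k1 k3 hpb) (zeros_bdd k1 k3 hmb)
    rw [k4, hcp ψ hψ] at h1
    have h2 : ((cnt (LL K ψ) (Wd δ t₁ H) : ℕ) : ℝ) ≤
        ((∑ z ∈ Z ψ, analyticOrderNatAt (LL K ψ) z +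
          ∑ z ∈ Z ψ, analyticOrderNatAt (LL K ψ) z : ℕ) : ℝ) := by exact_mod_cast h1
    push_cast at h2
    linarith
  have hmain := hden 𝔮 hbot htop T H hH hHT hX Fs hFs (LL K)
    (fun ψ hψ => ⟨(hfun ψ hψ).1, (hfun ψ hψ).2.1⟩) t₁ ht₁ δ hδ Z (fun ψ hψ z hz => by
      have h1 : z ∈ (Z ψ : Set ℂ) := hz
      rw [hZ ψ hψ] at h1
      obtain ⟨⟨a1, a2, a3, a4, a5⟩, -⟩ := h1
      exact ⟨a3, a4, a5⟩)
  calc ∑ ψ ∈ Fs, (cnt (LL K ψ) (Wd δ t₁ H) : ℝ)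
      ≤ ∑ ψ ∈ Fs, 2 * ∑ z ∈ Z ψ, (analyticOrderNatAt (LL K ψ) z : ℝ) := Finset.sum_le_sum hle
    _ = 2 * ∑ ψ ∈ Fs, ∑ z ∈ Z ψ, (analyticOrderNatAt (LL K ψ) z : ℝ) := by rw [Finset.mul_sum]
    _ ≤ 2 * _ := mul_le_mul_of_nonneg_left hmain (by norm_num)
    _ = _ := by ring

/-- the square of the height is small -/
theorem absorb (K : Type) [Field K] [NumberField K] (hd2 : 2 ≤ Module.finrank ℚ K) (h c : ℝ)
    (hh1 : h ≤ 1) (hc0 : 0 < c) (hc : c < 2 * h - 1) :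
    ∃ C : ℝ, 1 ≤ C ∧ ∀ (𝔮 : Ideal (𝓞 K)) (_ : 𝔮 ≠ ⊥) (htop : 𝔮 ≠ ⊤) (T : ℝ), 1 ≤ T →
      ((Ideal.absNorm 𝔮 : ℝ) * T ^ Module.finrank ℚ K) ^ h ≤ (Ideal.absNorm 𝔮 : ℝ) →
      T ^ 2 ≤ C * (Nat.card (Cls (pi1 htop)) * Un 𝔮 *
        ((Ideal.absNorm 𝔮 : ℝ) * T ^ Module.finrank ℚ K) ^ (-(c / 2))) := by
  obtain ⟨C, hC, hdiv⟩ := divisor_bound K (ε := h - 1 / 2) (by linarith)
  refine ⟨C, hC, fun 𝔮 hbot htop T hT hX => ?_⟩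
  obtain ⟨N, hN⟩ : ∃ N : ℝ, N = (Ideal.absNorm 𝔮 : ℝ) := ⟨_, rfl⟩
  obtain ⟨d, hd⟩ : ∃ d : ℕ, d = Module.finrank ℚ K := ⟨_, rfl⟩
  have a1 := norm_le_tau_phi hbot
  have a2 := card_units_le hbot htop
  have a4 := hdiv 𝔮 hbot
  have b1 : (Ideal.absNorm 𝔮 : ℝ) ≤ (dv 𝔮).ncard * Nat.card (𝓞 K ⧸ 𝔮)ˣ := by exact_mod_cast a1
  have b2 : (Nat.card (𝓞 K ⧸ 𝔮)ˣ : ℝ) ≤ Un 𝔮 * Nat.card (Cls (pi1 htop)) := by
    exact_mod_cast a2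
  rw [← hN] at hX a4 b1 ⊢
  rw [← hd] at hX ⊢
  have hN1 : 1 ≤ N := by
    rw [hN]
    exact_mod_cast absNorm_pos' hbot
  have hN0 : 0 < N := by linarith
  have hT0 : 0 < T := by linarith
  obtain ⟨U, hU⟩ : ∃ U : ℝ, U = (Nat.card (Cls (pi1 htop)) : ℝ) * Un 𝔮 := ⟨_, rfl⟩
  rw [← hU]
  have hU0 : 0 ≤ U := by rw [hU]; positivity
  obtain ⟨X, hXd⟩ : ∃ X : ℝ, X = N * T ^ d := ⟨_, rfl⟩
  rw [← hXd] at hX ⊢
  have hTd : T ^ 2 ≤ T ^ d := pow_le_pow_right₀ hT (by rw [hd]; exact hd2)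
  have hTd1 : 1 ≤ T ^ d := one_le_pow₀ hT
  have hX1 : 1 ≤ X := by
    rw [hXd]
    nlinarith
  have hX0 : 0 < X := by linarith
  -- the norm and the number of the classes
  have e1 : N ≤ C * N ^ (h - 1 / 2) * U := by
    calc N ≤ (dv 𝔮).ncard * Nat.card (𝓞 K ⧸ 𝔮)ˣ := b1
      _ ≤ (C * N ^ (h - 1 / 2)) * (Un 𝔮 * Nat.card (Cls (pi1 htop))) :=
          mul_le_mul a4 b2 (Nat.cast_nonneg _) (by positivity)
      _ = _ := by rw [hU]; ring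
  have e2 : N ^ (1 - (h - 1 / 2)) ≤ C * U := by
    have hp : 0 < N ^ (h - 1 / 2) := Real.rpow_pos_of_pos hN0 _
    refine le_of_mul_le_mul_right ?_ hp
    rw [← Real.rpow_add hN0]
    have : 1 - (h - 1 / 2) + (h - 1 / 2) = 1 := by ring
    rw [this, Real.rpow_one]
    linarith
  have e3 : X ^ (h * (1 - (h - 1 / 2))) ≤ N ^ (1 - (h - 1 / 2)) := by
    rw [Real.rpow_mul hX0.le]
    exact Real.rpow_le_rpow (by positivity) hX (by linarith)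
  -- the height
  have e4 : T ^ d ≤ X ^ (1 - h) := by
    have hp : 0 < X ^ h := Real.rpow_pos_of_pos hX0 _
    refine le_of_mul_le_mul_right ?_ hp
    rw [← Real.rpow_add hX0]
    have : 1 - h + h = 1 := by ring
    rw [this, Real.rpow_one]
    calc T ^ d * X ^ h ≤ T ^ d * N := mul_le_mul_of_nonneg_left hX (by positivity)
      _ = X := by rw [hXd]; ring
  have e5 : X ^ (1 - h) ≤ X ^ (h * (1 - (h - 1 / 2)) + -(c / 2)) := by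
    refine Real.rpow_le_rpow_of_exponent_le hX1 ?_
    have h1 : h * (h - 1 / 2) ≤ h - 1 / 2 := by
      have h2 : 0 ≤ (1 - h) * (h - 1 / 2) := mul_nonneg (by linarith) (by linarith)
      nlinarith
    nlinarith
  have e6 : 0 < X ^ (-(c / 2)) := Real.rpow_pos_of_pos hX0 _
  calc T ^ 2 ≤ T ^ d := hTd
    _ ≤ X ^ (1 - h) := e4
    _ ≤ X ^ (h * (1 - (h - 1 / 2)) + -(c / 2)) := e5
    _ = X ^ (h * (1 - (h - 1 / 2))) * X ^ (-(c / 2)) := Real.rpow_add hX0 _ _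
    _ ≤ N ^ (1 - (h - 1 / 2)) * X ^ (-(c / 2)) := mul_le_mul_of_nonneg_right e3 e6.le
    _ ≤ (C * U) * X ^ (-(c / 2)) := mul_le_mul_of_nonneg_right e2 e6.le
    _ = C * (U * X ^ (-(c / 2))) := by ring

/-- **the product over all the characters** -/
theorem prod_den (hGro : StGro) (hCru : StCru) (K : Type) [Field K] [NumberField K]
    {n : (K →+* ℂ) → ℕ} (hn : CTyp n) (hn0 : n ≠ 0) (hd2 : 2 ≤ Module.finrank ℚ K) (h c : ℝ)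
    (hh1 : h ≤ 1) (hc0 : 0 < c) (hc : c < 2 * h - 1) :
    ∃ A : ℝ, 1 ≤ A ∧ ∀ (𝔮 : Ideal (𝓞 K)) (_ : 𝔮 ≠ ⊥) (htop : 𝔮 ≠ ⊤) (T H : ℝ), 1 ≤ H → H ≤ T →
      ((Ideal.absNorm 𝔮 : ℝ) * T ^ Module.finrank ℚ K) ^ h ≤ (Ideal.absNorm 𝔮 : ℝ) →
      ∀ L : (Mq 𝔮 →* ℂˣ) → ℂ → ℂ,
      (∀ F ∈ Dn n htop, Differentiable ℂ (L F) ∧ ∀ s : ℂ, 1 < s.re → L F s = LI (ofM' htop F) s) →
      ∀ J : Finset (Mq 𝔮 →* ℂˣ), (∀ F, F ∈ J ↔ F ∈ Dn n htop) →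
      ∀ t₁ : ℝ, |t₁| ≤ T → ∀ δ : ℝ, 0 ≤ δ →
      (cnt (fun s => ∏ F ∈ J, (L F s * cf (L F) s)) (Wd δ t₁ H) : ℝ) ≤
        A * (Nat.card (Cls (pi1 htop)) * Un 𝔮 * H *
          Real.log ((Ideal.absNorm 𝔮 : ℝ) * T ^ Module.finrank ℚ K) *
          ((Ideal.absNorm 𝔮 : ℝ) * T ^ Module.finrank ℚ K) ^ (-(c * δ))) := by
  classical
  obtain ⟨A₁, hA₁, H1⟩ := fam_den K hn h c hh1 hc0 hc
  obtain ⟨A₂, hA₂, H2⟩ := fam_den K (CTyp_nc hn) h c hh1 hc0 hc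
  obtain ⟨C, hC, H3⟩ := absorb K hd2 h c hh1 hc0 hc
  obtain ⟨B, hB0, hB⟩ := dn0_bd hGro hCru hn hn0
  obtain ⟨A₃, hA₃⟩ : ∃ A₃ : ℝ, A₃ = (hK K : ℝ) * (2 * B) * C / Real.log 2 := ⟨_, rfl⟩
  have hlog2 : 0 < Real.log 2 := Real.log_pos (by norm_num)
  have hA₃0 : 0 ≤ A₃ := by rw [hA₃]; positivity
  refine ⟨A₁ + A₂ + A₃, by linarith, ?_⟩
  intro 𝔮 hbot htop T H hH hHT hX L hL J hJ t₁ ht₁ δ hδ
  have hT : 1 ≤ T := hH.trans hHT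
  have hH0 : 0 ≤ H := by linarith
  obtain ⟨hfin, -⟩ := FamN_finite (n := n) hbot htop
  obtain ⟨Fs, hFs⟩ : ∃ Fs : Finset (Ideal (𝓞 K) →*₀ ℂ), Fs = hfin.toFinset := ⟨_, rfl⟩
  have hFm : ∀ ψ, ψ ∈ Fs ↔ ψ ∈ FamN n 𝔮 := fun ψ => by rw [hFs, Set.Finite.mem_toFinset]
  have hL' : ∀ ψ ∈ FamN n 𝔮, Differentiable ℂ (LL K ψ) ∧ ∀ s : ℂ, 1 < s.re → LL K ψ s = LI ψ s := by
    rintro ψ ⟨𝔣, h1, h2, h3⟩
    obtain ⟨hψ1, μ, F, hμ, hFE, hFL⟩ := feM hn h2 h3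
    rw [LL_eq K hFE.diff hFL]
    exact ⟨hFE.diff, hFL⟩
  have hW0 : ∀ s ∈ Wd δ t₁ H, 0 < s.re := fun s hs => hs.1
  have hWb : ∀ s ∈ Wd δ t₁ H, ‖s‖ ≤ 1 + (|t₁| + H) := fun s ⟨h1, h2, _, h4, h5⟩ =>
    box_bdd h1 h2 h4 h5 hH0
  have hWx : Wd δ t₁ H ⊆ bx T := by
    rintro s ⟨h1, h2, -, h4, h5⟩
    refine ⟨h1, h2, ?_⟩
    rw [abs_le]
    have h6 := neg_abs_le t₁
    have h7 := le_abs_self t₁
    constructor <;> linarith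
  have hp := prod_cn hbot htop L hL hL' J hJ Fs hFm hW0 hWb
  obtain ⟨X, hXd⟩ : ∃ X : ℝ, X = (Ideal.absNorm 𝔮 : ℝ) * T ^ Module.finrank ℚ K := ⟨_, rfl⟩
  obtain ⟨P, hP⟩ : ∃ P : ℝ, P = (Nat.card (Cls (pi1 htop)) : ℝ) * Un 𝔮 := ⟨_, rfl⟩
  have hP0 : 0 ≤ P := by rw [hP]; positivity
  have q1 := H1 𝔮 hbot htop T H hH hHT hX Fs (fun ψ hψ => (hFm ψ).mp hψ) t₁ ht₁ δ hδ
  have q2 := H2 𝔮 hbot htop T H hH hHT hX (Fs.image cc') (fun ψ hψ => by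
    obtain ⟨ψ', h1, rfl⟩ := Finset.mem_image.mp hψ
    rw [FamN_cc']
    exact ⟨ψ', (hFm ψ').mp h1, rfl⟩) t₁ ht₁ δ hδ
  rw [Finset.sum_image (fun a _ b _ h => cc'_inj h)] at q2
  have q3 := H3 𝔮 hbot htop T hT hX
  rw [← hXd, ← hP] at q1 q2 q3 ⊢
  have hN2 : (2 : ℝ) ≤ (Ideal.absNorm 𝔮 : ℝ) := by exact_mod_cast two_le_absNorm hbot htop
  have hTd1 : 1 ≤ T ^ Module.finrank ℚ K := one_le_pow₀ hT
  have hX2 : 2 ≤ X := by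
    rw [hXd]
    nlinarith
  have hX0 : 0 < X := by linarith
  have hlX : Real.log 2 ≤ Real.log X := Real.log_le_log (by norm_num) hX2
  have hlX0 : 0 < Real.log X := by linarith
  have hR0 : 0 ≤ P * H * Real.log X * X ^ (-(c * δ)) := by positivity
  by_cases hδ2 : 1 / 2 ≤ δ
  · -- no zeros
    have hempty : Wd δ t₁ H = ∅ := by
      ext s
      simp only [Set.mem_empty_iff_false, iff_false]
      rintro ⟨h1, h2, h3, -, -⟩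
      have h4 : |s.re - 1 / 2| < 1 / 2 := by
        rw [abs_lt]
        constructor <;> linarith
      linarith
    rw [hempty]
    have h0 : cnt (fun s => ∏ F ∈ J, (L F s * cf (L F) s)) ∅ = 0 := by
      unfold cnt
      have : {s : ℂ | s ∈ (∅ : Set ℂ) ∧ (fun s => ∏ F ∈ J, (L F s * cf (L F) s)) s = 0} = ∅ := by
        ext s
        simp
      rw [this, finsum_mem_empty]
    rw [h0, Nat.cast_zero]
    have : 0 ≤ A₁ + A₂ + A₃ := by linarith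
    positivity
  · push Not at hδ2
    have hJ0 : (J.filter (fun F => F ∈ Dn0 n 𝔮)).card ≤ hK K := by
      refine le_trans ?_ (Dn0_card (n := n) hbot htop)
      rw [← Set.ncard_coe_finset]
      refine Set.ncard_le_ncard (fun F hF => ?_)
        ((Dn_card_le (n := n) hbot htop).1.subset (Dn0_sub htop))
      rw [Finset.mem_coe, Finset.mem_filter] at hF
      exact hF.2
    have h4 : ((∑ F ∈ J.filter (fun F => F ∈ Dn0 n 𝔮), (cnt (L F) (Wd δ t₁ H) +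
        cnt (cf (L F)) (Wd δ t₁ H)) : ℕ) : ℝ) ≤ (hK K : ℝ) * (2 * (B * T ^ 2)) := by
      push_cast
      calc ∑ F ∈ J.filter (fun F => F ∈ Dn0 n 𝔮), ((cnt (L F) (Wd δ t₁ H) : ℝ) +
          (cnt (cf (L F)) (Wd δ t₁ H) : ℝ))
          ≤ ∑ F ∈ J.filter (fun F => F ∈ Dn0 n 𝔮), (2 * (B * T ^ 2)) := by
            refine Finset.sum_le_sum fun F hF => ?_
            rw [Finset.mem_filter] at hF
            obtain ⟨k1, k2⟩ := hL F ((hJ F).mp hF.1)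
            obtain ⟨k3, k4⟩ := hB 𝔮 hbot htop F hF.2 (L F) k1 k2 T hT _ hWx
            linarith
        _ = ((J.filter (fun F => F ∈ Dn0 n 𝔮)).card : ℝ) * (2 * (B * T ^ 2)) := by
            rw [Finset.sum_const, nsmul_eq_mul]
        _ ≤ (hK K : ℝ) * (2 * (B * T ^ 2)) := by
            refine mul_le_mul_of_nonneg_right ?_ (by positivity)
            exact_mod_cast hJ0
    have h5 : (hK K : ℝ) * (2 * (B * T ^ 2)) ≤ A₃ * (P * H * Real.log X * X ^ (-(c * δ))) := by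
      have h6 : X ^ (-(c / 2)) ≤ X ^ (-(c * δ)) := by
        refine Real.rpow_le_rpow_of_exponent_le (by linarith) ?_
        nlinarith
      have h7 : T ^ 2 ≤ C * (P * X ^ (-(c * δ))) := by
        refine q3.trans (mul_le_mul_of_nonneg_left ?_ (by linarith))
        exact mul_le_mul_of_nonneg_left h6 hP0
      have h8 : 0 < X ^ (-(c * δ)) := Real.rpow_pos_of_pos hX0 _
      have h9 : P * X ^ (-(c * δ)) * Real.log 2 ≤ P * H * Real.log X * X ^ (-(c * δ)) := by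
        have h10 : 0 ≤ P * X ^ (-(c * δ)) := by positivity
        calc P * X ^ (-(c * δ)) * Real.log 2 ≤ P * X ^ (-(c * δ)) * (H * Real.log X) := by
              refine mul_le_mul_of_nonneg_left ?_ h10
              nlinarith
          _ = _ := by ring
      calc (hK K : ℝ) * (2 * (B * T ^ 2)) = (hK K : ℝ) * (2 * B) * T ^ 2 := by ring
        _ ≤ (hK K : ℝ) * (2 * B) * (C * (P * X ^ (-(c * δ)))) :=
            mul_le_mul_of_nonneg_left h7 (by positivity)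
        _ = A₃ * (P * X ^ (-(c * δ)) * Real.log 2) := by
            rw [hA₃]
            field_simp
        _ ≤ A₃ * (P * H * Real.log X * X ^ (-(c * δ))) := mul_le_mul_of_nonneg_left h9 hA₃0
    have h6 : (cnt (fun s => ∏ F ∈ J, (L F s * cf (L F) s)) (Wd δ t₁ H) : ℝ) ≤
        ((∑ ψ ∈ Fs, (cnt (LL K ψ) (Wd δ t₁ H) + cnt (LL K (cc' ψ)) (Wd δ t₁ H)) : ℕ) : ℝ) +
        ((∑ F ∈ J.filter (fun F => F ∈ Dn0 n 𝔮), (cnt (L F) (Wd δ t₁ H) +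
          cnt (cf (L F)) (Wd δ t₁ H)) : ℕ) : ℝ) := by exact_mod_cast hp
    have h7 : ((∑ ψ ∈ Fs, (cnt (LL K ψ) (Wd δ t₁ H) +
        cnt (LL K (cc' ψ)) (Wd δ t₁ H)) : ℕ) : ℝ) =
        ∑ ψ ∈ Fs, (cnt (LL K ψ) (Wd δ t₁ H) : ℝ) +
          ∑ ψ ∈ Fs, (cnt (LL K (cc' ψ)) (Wd δ t₁ H) : ℝ) := by
      push_cast
      rw [Finset.sum_add_distrib]
    rw [h7] at h6
    have h8 : (A₁ + A₂ + A₃) * (P * H * Real.log X * X ^ (-(c * δ))) =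
        A₁ * (P * H * Real.log X * X ^ (-(c * δ))) + A₂ * (P * H * Real.log X * X ^ (-(c * δ))) +
        A₃ * (P * H * Real.log X * X ^ (-(c * δ))) := by ring
    rw [h8]
    linarith

end Pool.Agent.K9h29.RD
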