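import Pool.Agent.N784.CZ.Crx
import Pool.Agent.K9h29.RD.Fam

/-!
# The zeros of `L(E/K, s)` away from the line `Re s = 1`, `K` a ray class field of a number field
containing `i` (helper29; adapted from `Pool.Agent.N784.CZ.Crx`)
-/

set_option autoImplicit false
set_option linter.unusedSectionVars false

open NumberField Complex Filter Topology Set IsDedekindDomain

namespace Pool.Agent.K9h29.RD

open Pool.Agent.Y773 (TPos LI)
open Pool.Agent.Y767 (Mq Cls cls eq_of_LI)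
open Pool.Agent.Y773.IQ (ofM' tM LL LL_eq absNorm_pos')
open Pool.Agent.N784.HC
open Pool.Agent.N784.CZ
open Pool.Agent.N784.AD (pi1 Un one_le_Un cls_card_le hK)
open Pool.Agent.N833.CZ (norm_ofM'_le)
open H370 (zset mult NN Nd Ns)
open Pool.Agent.H82R3.EK (cnt cnt_eq_sum cnt_prod NN_eq Ns_le strip line)
open Pool.Agent.W164.RC (eulerFactor order_shift inj_shift)

/-- the part of the half plane `Re s > 1/2` at distance at least `δ` from the line `Re s = 1` -/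
def rg (δ t H : ℝ) : Set ℂ :=
  {s : ℂ | 1 / 2 < s.re ∧ δ ≤ |s.re - 1| ∧ t ≤ s.im ∧ s.im ≤ t + H}

/-- a number field containing `i` has degree at least two -/
lemma two_le_finrank {M : Type} [Field M] [NumberField M] (ι₀ : GaussianInt →+* 𝓞 M) :
    2 ≤ Module.finrank ℚ M := by
  by_contra hcon
  have h1 : 0 < Module.finrank ℚ M := Module.finrank_pos
  have h2 : Module.finrank ℚ M = 1 := by omega
  have h3 := (finrank_eq_one_iff_of_nonzero' (1 : M) one_ne_zero).mp h2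
  obtain ⟨q, hq⟩ := h3 ((ι₀ ⟨0, 1⟩ : 𝓞 M) : M)
  have h4 : ((ι₀ ⟨0, 1⟩ : 𝓞 M) : M) ^ 2 = -1 := by
    have h5 : (⟨0, 1⟩ : GaussianInt) ^ 2 = -1 := by
      decide
    have h6 : (ι₀ ⟨0, 1⟩) ^ 2 = -1 := by
      rw [← map_pow, h5, map_neg, map_one]
    have h7 := congrArg (algebraMap (𝓞 M) M) h6
    rw [map_pow, map_neg, map_one] at h7
    exact h7
  rw [← hq] at h4
  have h5 : (q • (1 : M)) ^ 2 = ((q ^ 2 : ℚ) : M) := by
    rw [Algebra.smul_def, mul_one, ← map_pow]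
    rfl
  rw [h5] at h4
  have h6 : ((q ^ 2 : ℚ) : M) = ((-1 : ℚ) : M) := by
    rw [h4]
    norm_num
  have h7 : (q ^ 2 : ℚ) = -1 := by exact_mod_cast h6
  nlinarith [sq_nonneg q]

/-- two entire functions with the same values on a half plane -/
lemma eq_half {f g : ℂ → ℂ} (hf : Differentiable ℂ f) (hg : Differentiable ℂ g) {a : ℝ}
    (h : ∀ s : ℂ, a < s.re → f s = g s) : f = g := by
  have h1 : AnalyticOnNhd ℂ f Set.univ := fun s _ => hf.analyticAt s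
  have h2 : AnalyticOnNhd ℂ g Set.univ := fun s _ => hg.analyticAt s
  refine h1.eq_of_eventuallyEq h2 (z₀ := ((a + 1 : ℝ) : ℂ)) ?_
  have h3 : {s : ℂ | a < s.re} ∈ 𝓝 ((a + 1 : ℝ) : ℂ) := by
    refine (isOpen_lt continuous_const Complex.continuous_re).mem_nhds ?_
    show a < ((a + 1 : ℝ) : ℂ).re
    rw [Complex.ofReal_re]
    linarith
  filter_upwards [h3] with s hs
  exact h s hs

/-- **zeros of the L-function of `y² = x³ - x` over ray class fields away from the line, and its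
order at the centre** -/
theorem crv_den (M : Type) [Field M] [NumberField M] (ι₀ : GaussianInt →+* 𝓞 M) (h c : ℝ)
    (hh1 : h ≤ 1) (hc0 : 0 < c) (hc : c < 2 * h - 1) : ∃ A : ℝ, 1 ≤ A ∧
    ∀ (𝔮 : Ideal (𝓞 M)), 𝔮 ≠ ⊥ → 𝔮 ≤ Ideal.span {ι₀ ⟨2, 2⟩} →
    ∀ (K : Type) [Field K] [NumberField K] (ι : 𝓞 M →+* 𝓞 K)
      (art : Ideal (𝓞 M) → (𝓞 K ≃+* 𝓞 K)), IsRCF 𝔮 K ι art →
    ∃ H : ℂ → ℂ, Differentiable ℂ H ∧
      (∀ s : ℂ, 3 / 2 < s.re → HasProd (open Classical in fun v : HeightOneSpectrum (𝓞 K) =>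
        if 𝔮.map ι ≤ v.asIdeal then 1 else eulerFactor s v) (H s)) ∧
      (analyticOrderNatAt H 1 : ℝ) ≤ A * (Module.finrank ℚ K * (1 + Real.log (Un 𝔮))) ∧
      ∀ T Y : ℝ, 1 ≤ Y → Y ≤ T →
        ((Ideal.absNorm 𝔮 : ℝ) * T ^ Module.finrank ℚ M) ^ h ≤ (Ideal.absNorm 𝔮 : ℝ) →
        ∀ t : ℝ, |t| ≤ T → ∀ δ : ℝ, 0 ≤ δ →
        {s : ℂ | s ∈ rg δ t Y ∧ H s = 0}.Finite ∧
        (cnt H (rg δ t Y) : ℝ) ≤ A * ((Module.finrank ℚ K : ℝ) / (Module.finrank ℚ M : ℝ) *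
          (Un 𝔮 : ℝ) * Y *
          Real.log ((Ideal.absNorm 𝔮 : ℝ) * T ^ Module.finrank ℚ M) *
          ((Ideal.absNorm 𝔮 : ℝ) * T ^ Module.finrank ℚ M) ^ (-(c * δ))) := by
  classical
  obtain ⟨C, hC, hran⟩ := ran M ι₀
  obtain ⟨A, hA, H0⟩ := prod_den Pool.Agent.N603.CZ.t_gro Pool.Agent.N768.CZ.t_cru M
    (tyi_ctyp ι₀) (tyi_ne ι₀) (two_le_finrank ι₀) h c hh1 hc0 hc
  refine ⟨max C A, le_max_of_le_left hC, fun 𝔮 hbot hle K _ _ ι art hK => ?_⟩
  have htop : 𝔮 ≠ ⊤ := le_ne_top ι₀ hle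
  have hhn : CTyp (tyi ι₀) := tyi_ctyp ι₀
  have hhn0 : tyi ι₀ ≠ 0 := tyi_ne ι₀
  obtain ⟨H', hH'd, hH'p, -, hH'o⟩ := hran 𝔮 hbot hle K ι art hK
  have hfin : (Dn (tyi ι₀) htop).Finite := (Dn_card_le (n := tyi ι₀) hbot htop).1
  have hex : ∀ F : Mq 𝔮 →* ℂˣ, ∃ L : ℂ → ℂ, F ∈ Dn (tyi ι₀) htop → (Differentiable ℂ L ∧
      ∀ s : ℂ, 1 < s.re → L s = LI (ofM' htop F) s) := by
    intro F
    by_cases h : F ∈ Dn (tyi ι₀) htop
    · obtain ⟨L, h1, h2⟩ := ent_of hhn hhn0 hbot htop h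
      exact ⟨L, fun _ => ⟨h1, h2⟩⟩
    · exact ⟨fun _ => 0, fun h' => absurd h' h⟩
  choose L hL using hex
  obtain ⟨J, hJ⟩ : ∃ J : Finset (Mq 𝔮 →* ℂˣ), J = hfin.toFinset := ⟨_, rfl⟩
  have hJm : ∀ F, F ∈ J ↔ F ∈ Dn (tyi ι₀) htop := fun F => by rw [hJ, Set.Finite.mem_toFinset]
  obtain ⟨G, hG⟩ : ∃ G : ℂ → ℂ, G = fun s => ∏ F ∈ J, (L F s * cf (L F) s) := ⟨_, rfl⟩
  have hGd : Differentiable ℂ G := by
    rw [hG]
    exact Differentiable.fun_finsetProd fun F hF =>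
      (hL F ((hJm F).mp hF)).1.mul (cf_diff (hL F ((hJm F).mp hF)).1)
  have hGne : ∀ s : ℂ, 1 ≤ s.re → G s ≠ 0 := by
    intro s hs
    rw [hG]
    simp only
    rw [Finset.prod_ne_zero_iff]
    intro F hF
    have hF' := (hJm F).mp hF
    refine mul_ne_zero (nv_Dn hhn hhn0 hbot htop hF' (hL F hF').1 (hL F hF').2 hs) ?_
    unfold cf
    rw [map_ne_zero]
    exact nv_Dn hhn hhn0 hbot htop hF' (hL F hF').1 (hL F hF').2 (by rw [Complex.conj_re]; exact hs)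
  have hHd : Differentiable ℂ (fun s => G (s - 1 / 2)) := hGd.comp (differentiable_id.sub_const _)
  have hprod : ∀ s : ℂ, 3 / 2 < s.re → HasProd (fun v : HeightOneSpectrum (𝓞 K) =>
        if 𝔮.map ι ≤ v.asIdeal then 1 else eulerFactor s v) (G (s - 1 / 2)) := by
    intro s hs
    have h1 := Pool.Agent.N833.CZ.t_glue Pool.Agent.N400.CZ.t_split Pool.Agent.N492.CZ.t_char
      Pool.Agent.N717.CZ.t_local M ι₀ 𝔮 hbot htop hle K ι art hK s hs
    have h2 : G (s - 1 / 2) =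
        ∏ᶠ F ∈ Dn (tyi ι₀) htop, (LI (ofM' htop F) (s - 1 / 2) *
        (starRingEnd ℂ) (LI (ofM' htop F) ((starRingEnd ℂ) s - 1 / 2))) := by
      rw [finprod_mem_eq_finite_toFinset_prod _ hfin, hG, ← hJ]
      refine Finset.prod_congr rfl fun F hF => ?_
      have hF' := (hJm F).mp hF
      have e1 : 1 < (s - 1 / 2).re := by
        have : (s - 1 / 2).re = s.re - 1 / 2 := by simp
        rw [this]; linarith
      have e3 : (starRingEnd ℂ) (s - 1 / 2) = (starRingEnd ℂ) s - 1 / 2 := by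
        rw [map_sub, map_div₀, map_one, map_ofNat]
      have e2 : 1 < ((starRingEnd ℂ) s - 1 / 2).re := by
        rw [← e3, Complex.conj_re]; exact e1
      unfold cf
      rw [e3, (hL F hF').2 _ e1, (hL F hF').2 _ e2]
    rw [h2]
    exact h1
  have hHH : (fun s => G (s - 1 / 2)) = H' :=
    eq_half hHd hH'd (a := 3 / 2) fun s hs => (hprod s hs).unique (hH'p s hs)
  refine ⟨fun s => G (s - 1 / 2), hHd, hprod, ?_, ?_⟩
  · rw [hHH]
    refine hH'o.trans (mul_le_mul_of_nonneg_right (le_max_left _ _) ?_)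
    have hUn : (1 : ℝ) ≤ (Un 𝔮 : ℝ) := by exact_mod_cast one_le_Un hbot
    have hlU : 0 ≤ Real.log (Un 𝔮) := Real.log_nonneg hUn
    positivity
  · intro T Y hY hYT hX t ht δ hδ
    have c1 := H0 𝔮 hbot htop T Y hY hYT hX L hL J hJm t ht δ hδ
    rw [← hG] at c1
    have hre : ∀ s : ℂ, (s - 1 / 2).re = s.re - 1 / 2 := fun s => by simp
    have him : ∀ s : ℂ, (s - 1 / 2).im = s.im := fun s => by simp
    have k1 : cnt (fun s => G (s - 1 / 2)) (rg δ t Y) = cnt G (Wd δ t Y) := by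
      apply cnt_shift
      intro s
      have e1 : (s - 1 / 2).re - 1 / 2 = s.re - 1 := by rw [hre]; ring
      refine ⟨fun ⟨⟨b1, b2, b3, b4⟩, b5⟩ => ⟨⟨?_, ?_, ?_, ?_, ?_⟩, b5⟩,
        fun ⟨⟨b1, b2, b3, b4, b5⟩, b6⟩ => ⟨⟨?_, ?_, ?_, ?_⟩, b6⟩⟩
      · rw [hre]; linarith
      · by_contra hcon
        exact hGne _ (not_lt.mp hcon) b5
      · rw [e1]; exact b2
      · rw [him]; exact b3
      · rw [him]; exact b4
      · rw [hre] at b1; linarith
      · rw [e1] at b3; exact b3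
      · rw [him] at b4; exact b4
      · rw [him] at b5; exact b5
    have hcard : (Nat.card (Cls (pi1 htop)) : ℝ) =
        (Module.finrank ℚ K : ℝ) / (Module.finrank ℚ M : ℝ) := by
      have h7 := Pool.Agent.N134.CZ.t_deg M 𝔮 hbot htop K ι art hK
      have h8 : 0 < Module.finrank ℚ M := Module.finrank_pos
      have h9 : (0 : ℝ) < Module.finrank ℚ M := by exact_mod_cast h8
      rw [h7]
      push_cast
      field_simp
    refine ⟨?_, ?_⟩
    · have h1 : ∀ s ∈ {s : ℂ | s ∈ rg δ t Y ∧ G (s - 1 / 2) = 0}, ‖s‖ ≤ 2 + (|t| + Y) := by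
        rintro s ⟨⟨b1, b2, b3, b5⟩, b4⟩
        refine box_bdd (by linarith) ?_ b3 b5 (by linarith)
        by_contra hcon
        refine hGne (s - 1 / 2) ?_ b4
        rw [hre]
        linarith [not_lt.mp hcon]
      have h2 : (fun s => G (s - 1 / 2)) 2 ≠ 0 := hGne _ (by norm_num)
      refine (dz_finite hHd h2 0 (2 + (|t| + Y))).subset ?_
      intro s hs
      exact ⟨by rw [sub_zero]; exact h1 s hs, hs.2⟩
    · rw [k1, ← hcard]
      refine c1.trans (mul_le_mul_of_nonneg_right (le_max_right _ _) ?_)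
      have hT : 1 ≤ T := hY.trans hYT
      have hN2 : (2 : ℝ) ≤ (Ideal.absNorm 𝔮 : ℝ) := by exact_mod_cast two_le_absNorm hbot htop
      have hTd1 : 1 ≤ T ^ Module.finrank ℚ M := one_le_pow₀ hT
      have hX1 : 1 ≤ (Ideal.absNorm 𝔮 : ℝ) * T ^ Module.finrank ℚ M := by nlinarith
      have hlX : 0 ≤ Real.log ((Ideal.absNorm 𝔮 : ℝ) * T ^ Module.finrank ℚ M) :=
        Real.log_nonneg hX1
      positivity

end Pool.Agent.K9h29.RD
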